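import Pool.Agent.H529R2.SymLin.FFT
set_option autoImplicit false
set_option linter.unusedSectionVars false

/-! The circuit of the fast Fourier transform of radix `q`. -/

namespace H529R2.SymLin

open Finset Classical

section chain

variable {A : Type*} [AddCommGroup A] [Fintype A]

theorem exists_next {p k D j : ℕ} (hp : p.Prime) (hA : Fintype.card A = (p ^ k) ^ D) (hj : j < D)
    (H : AddSubgroup A) (hH : Nat.card H = (p ^ k) ^ j) :
    ∃ K : AddSubgroup A, Nat.card K = (p ^ k) ^ (j + 1) ∧ H ≤ K := by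
  have : Fact (Nat.Prime p) := ⟨hp⟩
  have hdvd : p ^ (k * (j + 1)) ∣ Nat.card (Multiplicative A) := by
    rw [Nat.card_eq_fintype_card, Fintype.card_multiplicative, hA, ← pow_mul]
    exact pow_dvd_pow p (Nat.mul_le_mul_left _ (by omega))
  obtain ⟨K, h1, h2⟩ := Sylow.exists_subgroup_card_pow_prime_le p hdvd
    (AddSubgroup.toSubgroup H) (n := k * j) (by rw [pow_mul]; exact hH)
    (Nat.mul_le_mul_left _ (by omega))
  exact ⟨AddSubgroup.toSubgroup.symm K, by rw [← pow_mul]; exact h1, h2⟩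

theorem exists_transversal {H K : AddSubgroup A} {q : ℕ} (hHK : H ≤ K)
    (hcard : Nat.card K = q * Nat.card H) :
    ∃ T : Finset A, T.card = q ∧ (∀ c ∈ T, c ∈ K) ∧ ∀ b ∈ K, ∃ c ∈ T, b + c ∈ H ∧
      ∀ c' ∈ T, b + c' ∈ H → c' = c := by
  set H' := H.addSubgroupOf K with hH'
  have hfin : Fintype (K ⧸ H') := Fintype.ofFinite _
  have hQ : Fintype.card (K ⧸ H') = q := by
    have h1 := AddSubgroup.card_eq_card_quotient_mul_card_addSubgroup H'
    have h2 : Nat.card H' = Nat.card H :=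
      Nat.card_congr (AddSubgroup.addSubgroupOfEquivOfLe hHK).toEquiv
    rw [h2, hcard, Nat.card_eq_fintype_card (α := K ⧸ H')] at h1
    exact (Nat.eq_of_mul_eq_mul_right (Nat.card_pos (α := H)) h1).symm
  let f : K ⧸ H' → A := fun x => -((x.out : K) : A)
  have hmem : ∀ (b : K) (x : K ⧸ H'), (b : A) + f x ∈ H ↔ x = QuotientAddGroup.mk b := by
    intro b x
    have h1 : x = QuotientAddGroup.mk b ↔ -x.out + b ∈ H' := by
      rw [← QuotientAddGroup.eq]
      constructor
      · intro h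
        rw [h]
        exact Quotient.out_eq _
      · intro h
        rw [← h]
        exact (Quotient.out_eq x).symm
    have h5 : (-x.out + b ∈ H') ↔ ((-x.out + b : K) : A) ∈ H := AddSubgroup.mem_addSubgroupOf
    have h6 : ((-x.out + b : K) : A) = (b : A) + f x := by
      push_cast
      simp only [f]
      abel
    rw [h1, h5, h6]
  have hinj : Function.Injective f := by
    intro x y h
    have h1 : (x.out : K) = y.out := Subtype.ext (neg_injective h)
    rw [← Quotient.out_eq x, ← Quotient.out_eq y, h1]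
  refine ⟨Finset.univ.image f, ?_, ?_, ?_⟩
  · rw [Finset.card_image_of_injective _ hinj, Finset.card_univ, hQ]
  · intro c hc
    obtain ⟨x, -, rfl⟩ := Finset.mem_image.mp hc
    exact K.neg_mem x.out.2
  · intro b hb
    refine ⟨f (QuotientAddGroup.mk ⟨b, hb⟩), Finset.mem_image_of_mem _ (Finset.mem_univ _),
      (hmem ⟨b, hb⟩ _).mpr rfl, ?_⟩
    intro c' hc' h
    obtain ⟨x, -, rfl⟩ := Finset.mem_image.mp hc'
    rw [(hmem ⟨b, hb⟩ x).mp h]

theorem exists_chain {p k D : ℕ} (hp : p.Prime) (hA : Fintype.card A = (p ^ k) ^ D) :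
    ∃ H : ℕ → AddSubgroup A, H 0 = ⊥ ∧ H D = ⊤ ∧ ∀ j < D, H j ≤ H (j + 1) ∧
      ∃ T : Finset A, T.card = p ^ k ∧ (∀ c ∈ T, c ∈ H (j + 1)) ∧
        ∀ b ∈ H (j + 1), ∃ c ∈ T, b + c ∈ H j ∧ ∀ c' ∈ T, b + c' ∈ H j → c' = c := by
  let next : AddSubgroup A → AddSubgroup A := fun H =>
    if h : ∃ K : AddSubgroup A, Nat.card K = p ^ k * Nat.card H ∧ H ≤ K then h.choose else H
  let H : ℕ → AddSubgroup A := fun j => next^[j] ⊥
  have hsucc : ∀ j, H (j + 1) = next (H j) := fun j => Function.iterate_succ_apply' next j ⊥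
  have hex : ∀ j < D, Nat.card (H j) = (p ^ k) ^ j →
      ∃ K : AddSubgroup A, Nat.card K = p ^ k * Nat.card (H j) ∧ H j ≤ K := by
    intro j hj h1
    obtain ⟨K, hK1, hK2⟩ := exists_next hp hA hj (H j) h1
    exact ⟨K, by rw [hK1, h1, pow_succ, mul_comm], hK2⟩
  have hcard : ∀ j ≤ D, Nat.card (H j) = (p ^ k) ^ j := by
    intro j
    induction j with
    | zero => intro _; simp [H]
    | succ j ih =>
      intro hj
      have h1 := ih (by omega)
      have h2 := hex j (by omega) h1
      have h3 : H (j + 1) = h2.choose := by rw [hsucc]; exact dif_pos h2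
      rw [h3, h2.choose_spec.1, h1, pow_succ, mul_comm]
  have hle : ∀ j < D, H j ≤ H (j + 1) := by
    intro j hj
    have h2 := hex j hj (hcard j hj.le)
    have h3 : H (j + 1) = h2.choose := by rw [hsucc]; exact dif_pos h2
    rw [h3]
    exact h2.choose_spec.2
  refine ⟨H, rfl, ?_, fun j hj => ⟨hle j hj, exists_transversal (hle j hj) ?_⟩⟩
  · apply AddSubgroup.eq_top_of_card_eq
    rw [hcard D le_rfl, Nat.card_eq_fintype_card, hA]
  · rw [hcard (j + 1) hj, hcard j hj.le, pow_succ, mul_comm]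

end chain

section circuit

variable {F A : Type*} [Field F] [AddCommGroup A] [Fintype A]

/-- the gates: levels `k + 1`, and classes of pairs of a character and a coset of `H (k + 1)` -/
abbrev Gate (F : Type*) [Field F] {A : Type*} [AddCommGroup A] (m : ℕ) (H : ℕ → AddSubgroup A) :=
  (k : Fin m) × Quotient (sd F (H (k + 1)))

/-- the forms of the gates -/
noncomputable def gform {m : ℕ} {H : ℕ → AddSubgroup A} (v : Gate F m H) : A → F :=
  ff (H (v.1 + 1)) v.2.out

/-- the vertex of level `k` of a character and a coset -/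
def node {m : ℕ} (H : ℕ → AddSubgroup A) : (k : ℕ) → k ≤ m → AddChar A F × A → A ⊕ Gate F m H
  | 0, _, p => Sum.inl p.2
  | k + 1, hk, p => Sum.inr ⟨⟨k, hk⟩, Quotient.mk _ p⟩

theorem node_form {m : ℕ} {H : ℕ → AddSubgroup A} (h0 : H 0 = ⊥) (k : ℕ) (hk : k ≤ m)
    (p : AddChar A F × A) :
    ∃ c : F, ff (H k) p = c • vert (gform (m := m) (H := H)) (node H k hk p) := by
  rcases k with _ | k
  · refine ⟨p.1 p.2, ?_⟩
    funext x
    show ff (H 0) p x = p.1 p.2 • (Pi.single p.2 1 : A → F) x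
    rw [ff, h0]
    by_cases hx : x = p.2
    · subst hx
      simp
    · have : ¬ (x - p.2 ∈ (⊥ : AddSubgroup A)) := by
        rw [AddSubgroup.mem_bot, sub_eq_zero]
        exact hx
      rw [if_neg this, Pi.single_eq_of_ne hx, smul_zero]
  · obtain ⟨c, -, h⟩ := ff_eqv (F := F) (H := H (k + 1)) (p := p)
      (p' := (Quotient.mk (sd F (H (k + 1))) p).out)
      ((sd F (H (k + 1))).symm (Quotient.mk_out (s := sd F (H (k + 1))) p))
    exact ⟨c, h⟩

theorem node_eq {m : ℕ} {H : ℕ → AddSubgroup A} (k : ℕ) (hk : k ≤ m)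
    (p p' : AddChar A F × A) (h : node (m := m) H k hk p = node H k hk p') :
    p.2 - p'.2 ∈ H k := by
  rcases k with _ | k
  · have : p.2 = p'.2 := Sum.inl_injective h
    rw [this, sub_self]
    exact (H 0).zero_mem
  · have h1 := Sum.inr_injective h
    have h2 : (Quotient.mk (sd F (H (k + 1))) p) = Quotient.mk _ p' := by
      simpa using h1
    exact (Quotient.exact h2).1

theorem node_rank {m : ℕ} {H : ℕ → AddSubgroup A} (k : ℕ) (hk : k ≤ m)
    (p : AddChar A F × A) (u : Gate F m H) (h : node H k hk p = Sum.inr u) : (u.1 : ℕ) < k := by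
  rcases k with _ | k
  · exact absurd h (by simp [node])
  · have h1 := Sum.inr_injective h
    rw [← h1]
    exact Nat.lt_succ_self k

theorem ff_split {H K : AddSubgroup A} {T : Finset A} (hT : ∀ c ∈ T, c ∈ K) (hHK : H ≤ K)
    (h : ∀ b ∈ K, ∃ c ∈ T, b + c ∈ H ∧ ∀ c' ∈ T, b + c' ∈ H → c' = c) (p : AddChar A F × A) :
    ff K p = ∑ c ∈ T, ff H (p.1, p.2 - c) := by
  funext x
  rw [Finset.sum_apply]
  simp only [ff]
  have e : ∀ c, x - (p.2 - c) = (x - p.2) + c := fun c => by abel
  simp only [e]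
  by_cases h1 : x - p.2 ∈ K
  · obtain ⟨c, hc, h2, h3⟩ := h _ h1
    rw [if_pos h1, Finset.sum_eq_single c]
    · rw [if_pos h2]
    · intro c' hc' hne
      exact if_neg (fun h4 => hne (h3 c' hc' h4))
    · intro h4; exact absurd hc h4
  · rw [if_neg h1]
    symm
    apply Finset.sum_eq_zero
    intro c hc
    apply if_neg
    intro h3
    apply h1
    have := K.sub_mem (hHK h3) (hT c hc)
    rwa [add_sub_cancel_right] at this

theorem ff_act (H : AddSubgroup A) (χ : AddChar A F) (a : A) (p : AddChar A F × A) :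
    (fun x => χ x * ff H p (x + a)) = p.1 a • ff H (χ * p.1, p.2 - a) := by
  funext x
  rw [Pi.smul_apply, smul_eq_mul]
  simp only [ff]
  have e : x - (p.2 - a) = x + a - p.2 := by abel
  rw [e]
  by_cases h : x + a - p.2 ∈ H
  · rw [if_pos h, if_pos h, AddChar.map_add_eq_mul, AddChar.mul_apply]
    ring
  · rw [if_neg h, if_neg h, mul_zero, mul_zero]

end circuit

/-- **The fast Fourier transform.** -/
theorem upper {F A : Type} [Field F] [AddCommGroup A] [Fintype A] {p k m : ℕ} (hp : p.Prime)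
    (hm : 1 ≤ m) (hA : Fintype.card A = (p ^ k) ^ m) :
    ∃ (V : Type) (_ : Fintype V) (rank : V → ℕ) (pred : V → Finset (A ⊕ V)) (form : V → A → F),
      IsLinearCircuit rank pred form ∧ IsSymmetric pred form ∧ (∀ v, rank v < m) ∧
      (∀ χ : AddChar A F, ∃ v, form v = χ) ∧
      additions pred ≤ m * Fintype.card A * (p ^ k - 1) := by
  obtain ⟨H, hH0, hHm, hH⟩ := exists_chain hp hA
  choose! hle T hT1 hT2 hT3 using hH
  let V := Gate F m H
  have instV : Fintype V := Fintype.ofFinite _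
  let pred : V → Finset (A ⊕ V) := fun v =>
    (T v.1).image (fun c => node H v.1 v.1.2.le (v.2.out.1, v.2.out.2 - c))
  have hcard : ∀ v, (pred v).card = p ^ k := by
    intro v
    rw [← hT1 v.1 v.1.2]
    apply Finset.card_image_of_injOn
    intro c hc c' hc' h
    have h1 := node_eq _ _ _ _ h
    simp only [sub_sub_sub_cancel_left] at h1
    obtain ⟨c0, -, -, h2⟩ := hT3 v.1 v.1.2 (-c) ((H (v.1 + 1)).neg_mem (hT2 _ v.1.2 c hc))
    have e1 := h2 c hc (by rw [neg_add_cancel]; exact (H v.1).zero_mem)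
    have e2 := h2 c' hc' (by rw [neg_add_eq_sub]; exact h1)
    rw [e1, e2]
  refine ⟨V, inferInstance, fun v => v.1, pred, gform, ?_, ?_, fun v => v.1.2, ?_, ?_⟩
  · intro v
    refine ⟨fun u hu => ?_, ?_⟩
    · obtain ⟨c, -, h⟩ := Finset.mem_image.mp hu
      exact node_rank _ _ _ _ h
    · have h1 : gform v = ∑ c ∈ T v.1, ff (H v.1) (v.2.out.1, v.2.out.2 - c) :=
        ff_split (hT2 _ v.1.2) (hle _ v.1.2) (hT3 _ v.1.2) _
      rw [h1]
      refine Submodule.sum_mem _ (fun c hc => ?_)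
      obtain ⟨a1, e1⟩ := node_form hH0 v.1 v.1.2.le (v.2.out.1, v.2.out.2 - c)
      rw [e1]
      refine Submodule.smul_mem _ _ (Submodule.subset_span ?_)
      exact ⟨_, Finset.mem_coe.mpr (Finset.mem_image_of_mem _ hc), rfl⟩
  · intro χ a v
    let q : AddChar A F × A := (χ * v.2.out.1, v.2.out.2 - a)
    let w : V := ⟨v.1, Quotient.mk _ q⟩
    obtain ⟨d, hd, h1⟩ := ff_eqv (F := F) (H := H (v.1 + 1)) (p := w.2.out) (p' := q)
      (Quotient.mk_out (s := sd F (H (v.1 + 1))) q)
    refine ⟨w, d * (v.2.out.1 a)⁻¹, mul_ne_zero hd (inv_ne_zero (char_ne_zero _ _)), ?_, ?_⟩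
    · have h2 : (fun x => χ x * gform v (x + a)) = v.2.out.1 a • ff (H (v.1 + 1)) q :=
        ff_act _ _ _ _
      rw [h2, smul_smul, mul_assoc, inv_mul_cancel₀ (char_ne_zero _ _), mul_one]
      exact h1
    · rw [hcard, hcard]
  · intro χ
    refine ⟨⟨⟨m - 1, by omega⟩, Quotient.mk _ (χ, 0)⟩, ?_⟩
    have htop : H (m - 1 + 1) = ⊤ := by
      rw [Nat.sub_add_cancel hm]
      exact hHm
    have h1 : eqv (H (m - 1 + 1)) (Quotient.mk (sd F (H (m - 1 + 1))) (χ, 0)).out (χ, 0) :=
      Quotient.mk_out (s := sd F (H (m - 1 + 1))) (χ, 0)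
    funext x
    show ff (H (m - 1 + 1)) (Quotient.mk (sd F (H (m - 1 + 1))) (χ, 0)).out x = χ x
    rw [ff, if_pos (by rw [htop]; exact AddSubgroup.mem_top _)]
    exact h1.2 x (by rw [htop]; exact AddSubgroup.mem_top _)
  · have h1 : additions pred = Fintype.card V * (p ^ k - 1) := by
      rw [additions, Finset.sum_congr rfl (fun v _ => by rw [hcard v])]
      simp
    rw [h1]
    have : ∀ k : Fin m, Fintype (Quotient (sd F (H (k + 1)))) := fun k => Fintype.ofFinite _
    have h2 : Fintype.card V = ∑ k : Fin m, Fintype.card (Quotient (sd F (H (k + 1)))) := by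
      rw [← Nat.card_eq_fintype_card, Nat.card_sigma]
      exact Finset.sum_congr rfl (fun k _ => Nat.card_eq_fintype_card)
    rw [h2]
    apply Nat.mul_le_mul_right
    calc ∑ k : Fin m, Fintype.card (Quotient (sd F (H (k + 1))))
        ≤ ∑ _k : Fin m, Fintype.card A := Finset.sum_le_sum (fun k _ => card_quot _)
      _ = m * Fintype.card A := by
        rw [Finset.sum_const, Finset.card_univ, Fintype.card_fin, smul_eq_mul]

end H529R2.SymLin
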