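import Mathlib
set_option autoImplicit false

/-! Definitions: linear circuits which have the symmetries of the Fourier transform. -/

namespace H529R2.SymLin

/-- The linear forms at the vertices of a linear circuit with the inputs `x ∈ A` and the gates
`v ∈ V`; a function `f : A → F` stands for the linear form `∑ x, f x * (input x)`. -/
def vert {F A V : Type*} [Field F] [DecidableEq A] (form : V → A → F) : A ⊕ V → A → F
  | Sum.inl x => Pi.single x 1
  | Sum.inr v => form v

/-- A linear circuit: every gate `v` computes a linear combination, with arbitrary coefficients, of
the vertices in `pred v`, which are inputs or gates of smaller rank. -/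
def IsLinearCircuit {F A V : Type*} [Field F] [DecidableEq A] (rank : V → ℕ)
    (pred : V → Finset (A ⊕ V)) (form : V → A → F) : Prop :=
  ∀ v, (∀ u, Sum.inr u ∈ pred v → rank u < rank v) ∧
    form v ∈ Submodule.span F (vert form '' (pred v : Set (A ⊕ V)))

/-- The number of additions: a gate of fan-in `d` costs `d - 1`; multiplications by constants are
free. -/
def additions {A V : Type*} [Fintype V] (pred : V → Finset (A ⊕ V)) : ℕ :=
  ∑ v, ((pred v).card - 1)

/-- The circuit has the symmetries of the Fourier transform of `A`, up to scalars: for every
character `χ`, every `a ∈ A` and every gate `v` the form `x ↦ χ x * form v (x + a)` is, up to a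
nonzero scalar, computed by a gate of the same fan-in. -/
def IsSymmetric {F A V : Type*} [Field F] [AddCommGroup A]
    (pred : V → Finset (A ⊕ V)) (form : V → A → F) : Prop :=
  ∀ (χ : AddChar A F) (a : A) (v : V), ∃ w, ∃ c : F, c ≠ 0 ∧
    form w = c • (fun x => χ x * form v (x + a)) ∧ (pred w).card = (pred v).card

/-- Every function on `A` is a linear combination of characters with values in `F`. -/
def EnoughCharacters (F A : Type*) [Field F] [AddCommGroup A] : Prop :=
  Submodule.span F (Set.range (fun χ : AddChar A F => (χ : A → F))) = ⊤

end H529R2.SymLin
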