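import Pool.Agent.H529R2.SymLin.Circ
set_option autoImplicit false
set_option linter.unusedSectionVars false

/-! Enough characters. -/

namespace H529R2.SymLin

open Finset

theorem enough_complex (A : Type*) [AddCommGroup A] [Finite A] : EnoughCharacters ℂ A := by
  have h := (AddChar.complexBasis A).span_eq
  rw [AddChar.coe_complexBasis] at h
  exact h

/-- the sign of an element of `ZMod 2` -/
def sg (F : Type*) [Field F] (t : ZMod 2) : F := if t = 0 then 1 else -1

theorem sg_zero (F : Type*) [Field F] : sg F 0 = 1 := if_pos rfl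

theorem sg_one (F : Type*) [Field F] : sg F 1 = -1 := if_neg (by decide)

theorem zmod_two : ∀ s : ZMod 2, s = 0 ∨ s = 1 := by decide

theorem sg_add (F : Type*) [Field F] (s t : ZMod 2) : sg F (s + t) = sg F s * sg F t := by
  rcases zmod_two s with rfl | rfl <;> rcases zmod_two t with rfl | rfl
  · rw [add_zero, sg_zero, one_mul]
  · rw [zero_add, sg_zero, sg_one, one_mul]
  · rw [add_zero, sg_zero, sg_one, mul_one]
  · rw [show (1 : ZMod 2) + 1 = 0 by decide, sg_zero, sg_one]
    ring

/-- the characters of the cube -/
def cubeChar (F : Type*) [Field F] {m : ℕ} (b : Fin m → ZMod 2) :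
    AddChar (Fin m → ZMod 2) F where
  toFun x := ∏ i, sg F (b i * x i)
  map_zero_eq_one' := by simp [sg]
  map_add_eq_mul' x y := by
    rw [← Finset.prod_mul_distrib]
    refine Finset.prod_congr rfl (fun i _ => ?_)
    rw [Pi.add_apply, mul_add, sg_add]

theorem cubeChar_injective {F : Type*} [Field F] (h2 : (2 : F) ≠ 0) (m : ℕ) :
    Function.Injective (cubeChar F (m := m)) := by
  intro b b' h
  funext i
  have h1 := DFunLike.congr_fun h (Pi.single i 1)
  have h3 : ∀ b : Fin m → ZMod 2, cubeChar F b (Pi.single i 1) = sg F (b i) := by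
    intro b
    show ∏ j, sg F (b j * (Pi.single i 1 : Fin m → ZMod 2) j) = _
    rw [Finset.prod_eq_single i]
    · simp
    · intro j _ hj
      rw [Pi.single_eq_of_ne hj, mul_zero]
      simp [sg]
    · intro h; exact absurd (Finset.mem_univ _) h
  rw [h3, h3] at h1
  have h4 : ∀ s t : ZMod 2, sg F s = sg F t → s = t := by
    intro s t hst
    have hne : (1 : F) ≠ -1 := fun h => h2 (by linear_combination h)
    rcases zmod_two s with rfl | rfl <;> rcases zmod_two t with rfl | rfl
    · rfl
    · rw [sg_zero, sg_one] at hst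
      exact absurd hst hne
    · rw [sg_zero, sg_one] at hst
      exact absurd hst.symm hne
    · rfl
  exact h4 _ _ h1

theorem enough_cube {F : Type*} [Field F] (h2 : (2 : F) ≠ 0) (m : ℕ) :
    EnoughCharacters F (Fin m → ZMod 2) := by
  have hli : LinearIndependent F
      (fun b : Fin m → ZMod 2 => (cubeChar F b : (Fin m → ZMod 2) → F)) :=
    (linearIndependent_monoidHom (Multiplicative (Fin m → ZMod 2)) F).comp
      (fun b : Fin m → ZMod 2 => (cubeChar F b).toMonoidHom) (fun b b' h =>
        cubeChar_injective h2 m (by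
          ext x
          exact DFunLike.congr_fun h (Multiplicative.ofAdd x)))
  have h := hli.span_eq_top_of_card_eq_finrank' (by
    rw [Module.finrank_fintype_fun_eq_card])
  rw [EnoughCharacters, eq_top_iff, ← h, Submodule.span_le]
  rintro _ ⟨b, rfl⟩
  exact Submodule.subset_span ⟨cubeChar F b, rfl⟩

end H529R2.SymLin
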