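import Pool.Agent.H529R2.SymLin.Lower
set_option autoImplicit false
set_option linter.unusedSectionVars false

/-! The fast Fourier transform for abelian 2-groups. -/

namespace H529R2.SymLin

open Finset Classical

section

variable {F A : Type*} [Field F] [AddCommGroup A] [Fintype A]

theorem char_ne_zero (χ : AddChar A F) (x : A) : χ x ≠ 0 := by
  intro h
  have h1 : χ x * χ (-x) = 1 := by
    rw [← AddChar.map_add_eq_mul, add_neg_cancel, AddChar.map_zero_eq_one]
  rw [h, zero_mul] at h1
  exact zero_ne_one h1

/-- a character on a coset -/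
noncomputable def ff (H : AddSubgroup A) (p : AddChar A F × A) : A → F :=
  fun x => if x - p.2 ∈ H then p.1 x else 0

/-- the same coset, and the same character on the subgroup -/
def eqv (H : AddSubgroup A) (p p' : AddChar A F × A) : Prop :=
  p.2 - p'.2 ∈ H ∧ ∀ h ∈ H, p.1 h = p'.1 h

/-- the corresponding setoid -/
def sd (F : Type*) [Field F] (H : AddSubgroup A) : Setoid (AddChar A F × A) where
  r := eqv H
  iseqv := {
    refl := fun p => ⟨by rw [sub_self]; exact H.zero_mem, fun _ _ => rfl⟩
    symm := fun {p p'} h => ⟨by rw [← neg_sub]; exact H.neg_mem h.1, fun x hx => (h.2 x hx).symm⟩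
    trans := fun {p p' p''} h h' => ⟨by
      have := H.add_mem h.1 h'.1
      rwa [sub_add_sub_cancel] at this, fun x hx => (h.2 x hx).trans (h'.2 x hx)⟩ }

theorem ff_eqv {H : AddSubgroup A} {p p' : AddChar A F × A} (h : eqv H p p') :
    ∃ c : F, c ≠ 0 ∧ ff H p = c • ff H p' := by
  refine ⟨p.1 p'.2 * p'.1 (-p'.2), mul_ne_zero (char_ne_zero _ _) (char_ne_zero _ _), ?_⟩
  funext x
  have hiff : x - p.2 ∈ H ↔ x - p'.2 ∈ H := by
    constructor
    · intro h1
      have := H.add_mem h1 h.1
      rwa [sub_add_sub_cancel] at this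
    · intro h1
      have := H.sub_mem h1 h.1
      rwa [sub_sub_sub_cancel_right] at this
  rw [Pi.smul_apply, smul_eq_mul]
  simp only [ff]
  by_cases h1 : x - p'.2 ∈ H
  · rw [if_pos (hiff.mpr h1), if_pos h1]
    have e1 : p.1 x = p.1 p'.2 * p.1 (x - p'.2) := by
      rw [← AddChar.map_add_eq_mul]
      congr 1
      abel
    have e2 : p'.1 x = p'.1 p'.2 * p'.1 (x - p'.2) := by
      rw [← AddChar.map_add_eq_mul]
      congr 1
      abel
    have e3 : p'.1 (-p'.2) * p'.1 p'.2 = 1 := by
      rw [← AddChar.map_add_eq_mul, neg_add_cancel, AddChar.map_zero_eq_one]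
    rw [e1, e2, h.2 _ h1]
    linear_combination (-(p.1 p'.2) * p'.1 (x - p'.2)) * e3
  · rw [if_neg (fun h2 => h1 (hiff.mp h2)), if_neg h1, mul_zero]

/-- restriction of a character to a subgroup -/
def res (H : AddSubgroup A) (χ : AddChar A F) : Multiplicative H →* F where
  toFun h := χ (Multiplicative.toAdd h : H).1
  map_one' := by simp
  map_mul' x y := by
    simp [AddChar.map_add_eq_mul]

theorem linInd (H : AddSubgroup A) :
    LinearIndependent F (fun q : Quotient (sd F H) => ff H q.out) := by
  rw [linearIndependent_iff']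
  intro s c hsum q0 hq0
  set y0 := q0.out.2 with hy0
  set s' := s.filter (fun q => y0 - q.out.2 ∈ H) with hs'
  have hq0' : q0 ∈ s' := Finset.mem_filter.mpr ⟨hq0, by
    rw [hy0, sub_self]; exact H.zero_mem⟩
  -- the characters of the classes in `s'` are distinct on `H`
  let e : s' → (Multiplicative H →* F) := fun q => res H q.1.out.1
  have he : Function.Injective e := by
    intro q q' h
    apply Subtype.ext
    rw [← Quotient.out_eq q.1, ← Quotient.out_eq q'.1]
    apply Quotient.sound
    refine ⟨?_, fun x hx => ?_⟩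
    · have h1 := (Finset.mem_filter.mp q.2).2
      have h2 := (Finset.mem_filter.mp q'.2).2
      have := H.sub_mem h2 h1
      rwa [sub_sub_sub_cancel_left] at this
    · exact DFunLike.congr_fun h (Multiplicative.ofAdd (⟨x, hx⟩ : H))
  have hli : LinearIndependent F (fun q : s' => ((e q : Multiplicative H →* F) :
      Multiplicative H → F)) := (linearIndependent_monoidHom (Multiplicative H) F).comp e he
  rw [linearIndependent_iff'] at hli
  have h0 := hli Finset.univ (fun q => c q.1 * q.1.out.1 y0) (by
    funext h
    rw [Finset.sum_apply]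
    have h1 := congrFun hsum (y0 + (Multiplicative.toAdd h : H).1)
    rw [Finset.sum_apply] at h1
    have h2 : ∑ q ∈ s, (c q • ff H q.out) (y0 + (Multiplicative.toAdd h : H).1) =
        ∑ q ∈ s', c q * q.out.1 (y0 + (Multiplicative.toAdd h : H).1) := by
      rw [hs', Finset.sum_filter]
      refine Finset.sum_congr rfl (fun q _ => ?_)
      rw [Pi.smul_apply, smul_eq_mul]
      simp only [ff]
      have hiff : y0 + (Multiplicative.toAdd h : H).1 - q.out.2 ∈ H ↔ y0 - q.out.2 ∈ H := by
        have hh := (Multiplicative.toAdd h : H).2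
        constructor
        · intro h3
          have := H.sub_mem h3 hh
          rwa [show y0 + (Multiplicative.toAdd h : H).1 - q.out.2 - (Multiplicative.toAdd h : H).1 =
            y0 - q.out.2 by abel] at this
        · intro h3
          have := H.add_mem h3 hh
          rwa [show y0 - q.out.2 + (Multiplicative.toAdd h : H).1 =
            y0 + (Multiplicative.toAdd h : H).1 - q.out.2 by abel] at this
      by_cases h3 : y0 - q.out.2 ∈ H
      · rw [if_pos (hiff.mpr h3), if_pos h3]
      · rw [if_neg (fun h4 => h3 (hiff.mp h4)), if_neg h3, mul_zero]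
    rw [h2] at h1
    rw [← Finset.sum_coe_sort] at h1
    rw [Pi.zero_apply, ← h1.trans (Pi.zero_apply _)]
    refine Finset.sum_congr rfl (fun q _ => ?_)
    rw [Pi.smul_apply, smul_eq_mul, AddChar.map_add_eq_mul, mul_assoc]
    rfl) ⟨q0, hq0'⟩ (Finset.mem_univ _)
  exact (mul_eq_zero.mp h0).resolve_right (char_ne_zero _ _)

instance quotFinite (H : AddSubgroup A) : Finite (Quotient (sd F H)) := (linInd (F := F) H).finite

theorem card_quot (H : AddSubgroup A) [Fintype (Quotient (sd F H))] :
    Fintype.card (Quotient (sd F H)) ≤ Fintype.card A := by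
  have := (linInd (F := F) H).fintype_card_le_finrank
  rwa [Module.finrank_fintype_fun_eq_card] at this

end

end H529R2.SymLin
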