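import Pool.Agent.H529R2.SymLin.Defs
set_option autoImplicit false
set_option linter.unusedSectionVars false

/-! The lower bound for symmetric linear circuits. -/

namespace H529R2.SymLin

open Finset Classical

section

variable {F A V : Type*} [Field F] [AddCommGroup A] [Fintype A] [Fintype V]

/-- the number of inputs which occur in a form -/
noncomputable def supp (f : A → F) : ℕ := (Finset.univ.filter (fun x => f x ≠ 0)).card

/-- the translates and modulations of a nonzero function span everything -/
theorem span_orbit (hA : EnoughCharacters F A) {f : A → F} (hf : f ≠ 0) :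
    Submodule.span F (Set.range (fun p : AddChar A F × A => fun x => p.1 x * f (x + p.2))) = ⊤ := by
  obtain ⟨y, hy⟩ : ∃ y, f y ≠ 0 := by
    by_contra hcon
    push Not at hcon
    exact hf (funext hcon)
  set U := Submodule.span F (Set.range (fun p : AddChar A F × A => fun x => p.1 x * f (x + p.2)))
    with hU
  have hall : ∀ (a : A) (g : A → F), (fun x => g x * f (x + a)) ∈ U := by
    intro a g
    have hg : g ∈ Submodule.span F (Set.range (fun χ : AddChar A F => (χ : A → F))) := by
      rw [show Submodule.span F (Set.range (fun χ : AddChar A F => (χ : A → F))) = ⊤ from hA]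
      exact Submodule.mem_top
    induction hg using Submodule.span_induction with
    | mem g hg =>
      obtain ⟨χ, rfl⟩ := hg
      exact Submodule.subset_span ⟨(χ, a), rfl⟩
    | zero =>
      have : (fun x => (0 : A → F) x * f (x + a)) = 0 := by
        funext x; simp
      rw [this]
      exact Submodule.zero_mem _
    | add g h _ _ hg hh =>
      have : (fun x => (g + h) x * f (x + a)) =
          (fun x => g x * f (x + a)) + (fun x => h x * f (x + a)) := by
        funext x; simp [add_mul]
      rw [this]
      exact Submodule.add_mem _ hg hh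
    | smul c g _ hg =>
      have : (fun x => (c • g) x * f (x + a)) = c • (fun x => g x * f (x + a)) := by
        funext x; simp [mul_assoc]
      rw [this]
      exact Submodule.smul_mem _ _ hg
  have hsingle : ∀ z : A, (Pi.single z 1 : A → F) ∈ U := by
    intro z
    have h := hall (y - z) (Pi.single z (f y)⁻¹)
    have h2 : (fun x => (Pi.single z (f y)⁻¹ : A → F) x * f (x + (y - z))) = Pi.single z 1 := by
      funext x
      by_cases hx : x = z
      · subst hx
        simp only [Pi.single_eq_same, add_sub_cancel]
        exact inv_mul_cancel₀ hy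
      · simp [Pi.single_eq_of_ne hx]
    rwa [h2] at h
  rw [Submodule.eq_top_iff']
  intro h
  have : h = ∑ z, h z • (Pi.single z 1 : A → F) := by
    funext x
    simp [Finset.sum_apply, Pi.single_apply]
  rw [this]
  exact Submodule.sum_mem _ (fun z _ => Submodule.smul_mem _ _ (hsingle z))

theorem supp_orbit (χ : AddChar A F) (a : A) {c : F} (hc : c ≠ 0) (f : A → F) :
    supp (c • (fun x => χ x * f (x + a))) = supp f := by
  rw [supp, supp]
  apply Finset.card_bij (fun x _ => x + a)
  · intro x hx
    simp only [Finset.mem_filter, Finset.mem_univ, true_and, Pi.smul_apply, smul_eq_mul] at hx ⊢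
    exact right_ne_zero_of_mul (right_ne_zero_of_mul hx)
  · intro x _ y _ h
    exact add_right_cancel h
  · intro y hy
    refine ⟨y - a, ?_, by simp⟩
    simp only [Finset.mem_filter, Finset.mem_univ, true_and, Pi.smul_apply, smul_eq_mul] at hy ⊢
    rw [sub_add_cancel]
    refine mul_ne_zero hc (mul_ne_zero ?_ hy)
    intro h
    have h1 : χ (y - a) * χ (-(y - a)) = 1 := by
      rw [← AddChar.map_add_eq_mul, add_neg_cancel, AddChar.map_zero_eq_one]
    rw [h, zero_mul] at h1
    exact zero_ne_one h1

theorem supp_single (x : A) : supp (Pi.single x 1 : A → F) = 1 := by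
  rw [supp]
  have : Finset.univ.filter (fun y => (Pi.single x 1 : A → F) y ≠ 0) = {x} := by
    ext y
    simp only [Finset.mem_filter, Finset.mem_univ, true_and, Finset.mem_singleton, Pi.single_apply]
    constructor
    · intro h
      by_contra hne
      exact h (if_neg hne)
    · intro h
      simp [h]
  rw [this, Finset.card_singleton]

theorem supp_span {S : Finset (A ⊕ V)} {form : V → A → F} {t : ℕ}
    (ht : ∀ w ∈ S, supp (vert form w) ≤ t) {f : A → F}
    (hf : f ∈ Submodule.span F (vert form '' (S : Set (A ⊕ V)))) : supp f ≤ S.card * t := by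
  have hex : ∀ x, f x ≠ 0 → ∃ w ∈ S, vert form w x ≠ 0 := by
    intro x
    induction hf using Submodule.span_induction with
    | mem g hg =>
      obtain ⟨w, hw, rfl⟩ := hg
      exact fun h => ⟨w, hw, h⟩
    | zero => intro h; exact absurd rfl h
    | add g h _ _ hg hh =>
      intro hne
      by_cases h0 : g x = 0
      · apply hh
        rw [Pi.add_apply, h0, zero_add] at hne
        exact hne
      · exact hg h0
    | smul c g _ hg =>
      intro hne
      rw [Pi.smul_apply, smul_eq_mul] at hne
      exact hg (right_ne_zero_of_mul hne)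
  have hsub : Finset.univ.filter (fun x => f x ≠ 0) ⊆
      S.biUnion (fun w => Finset.univ.filter (fun x => vert form w x ≠ 0)) := by
    intro x hx
    obtain ⟨w, hw, hne⟩ := hex x (Finset.mem_filter.mp hx).2
    exact Finset.mem_biUnion.mpr ⟨w, hw, Finset.mem_filter.mpr ⟨Finset.mem_univ _, hne⟩⟩
  calc supp f ≤ (S.biUnion (fun w => Finset.univ.filter (fun x => vert form w x ≠ 0))).card :=
        Finset.card_le_card hsub
    _ ≤ ∑ w ∈ S, (Finset.univ.filter (fun x => vert form w x ≠ 0)).card :=
        Finset.card_biUnion_le
    _ ≤ ∑ _w ∈ S, t := Finset.sum_le_sum (fun w hw => ht w hw)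
    _ = S.card * t := by rw [Finset.sum_const, smul_eq_mul]

/-- the cost of the gates which have the support size and the fan-in of a given gate -/
theorem orbit_cost (hA : EnoughCharacters F A) {pred : V → Finset (A ⊕ V)} {form : V → A → F}
    (hs : IsSymmetric pred form) (v : V) (hv : form v ≠ 0) :
    Fintype.card A * ((pred v).card - 1) ≤
      ∑ w ∈ Finset.univ.filter (fun w => supp (form w) = supp (form v)), ((pred w).card - 1) := by
  set W := Finset.univ.filter (fun w => supp (form w) = supp (form v) ∧
    (pred w).card = (pred v).card) with hW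
  have hcard : Fintype.card A ≤ W.card := by
    have htop : Submodule.span F ((W.image form : Finset (A → F)) : Set (A → F)) = ⊤ := by
      rw [eq_top_iff, ← span_orbit hA hv, Submodule.span_le]
      rintro _ ⟨⟨χ, a⟩, rfl⟩
      obtain ⟨w, c, hc, h1, h2⟩ := hs χ a v
      have hw : w ∈ W := by
        refine Finset.mem_filter.mpr ⟨Finset.mem_univ _, ?_, h2⟩
        rw [h1]
        exact supp_orbit χ a hc _
      have h3 : (fun x => χ x * form v (x + a)) = c⁻¹ • form w := by
        rw [h1, smul_smul, inv_mul_cancel₀ hc, one_smul]
      show (fun x => χ x * form v (x + a)) ∈ _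
      rw [h3]
      refine Submodule.smul_mem _ _ (Submodule.subset_span ?_)
      rw [Finset.mem_coe]
      exact Finset.mem_image_of_mem _ hw
    have h1 := finrank_span_finset_le_card (R := F) (W.image form)
    rw [Set.finrank, htop, finrank_top, Module.finrank_fintype_fun_eq_card] at h1
    exact h1.trans Finset.card_image_le
  calc Fintype.card A * ((pred v).card - 1) ≤ W.card * ((pred v).card - 1) :=
        Nat.mul_le_mul_right _ hcard
    _ = ∑ w ∈ W, ((pred w).card - 1) := by
        rw [Finset.sum_congr rfl (fun w hw => by rw [(Finset.mem_filter.mp hw).2.2]),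
          Finset.sum_const, smul_eq_mul]
    _ ≤ _ := by
        apply Finset.sum_le_sum_of_subset
        intro w hw
        exact Finset.mem_filter.mpr ⟨Finset.mem_univ _, (Finset.mem_filter.mp hw).2.1⟩

theorem supp_zero : supp (0 : A → F) = 0 := by
  simp [supp]

/-- **Structure of symmetric circuits.**  A symmetric circuit of depth at most `D` which computes a
form with `s` inputs costs `|A| ∑ (e i - 1)` for some `e` with `s ≤ ∏ e i`. -/
theorem structure_lemma (hA : EnoughCharacters F A) {rank : V → ℕ}
    {pred : V → Finset (A ⊕ V)} {form : V → A → F} (hc : IsLinearCircuit rank pred form)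
    (hs : IsSymmetric pred form) (D : ℕ) :
    ∃ (e : Fin D → ℕ) (t : ℕ), (∀ i, 1 ≤ e i) ∧ 1 ≤ t ∧ t ≤ ∏ i, e i ∧
      Fintype.card A * ∑ i, (e i - 1) ≤
        ∑ w ∈ Finset.univ.filter (fun w => supp (form w) ≤ t), ((pred w).card - 1) ∧
      ∀ v, rank v < D → supp (form v) ≤ t := by
  induction D with
  | zero =>
    exact ⟨fun i => i.elim0, 1, fun i => i.elim0, le_rfl, by simp, by simp,
      fun v hv => absurd hv (by omega)⟩
  | succ D ih =>
    obtain ⟨e, t, he, ht, hprod, hcost, hsupp⟩ := ih
    by_cases hex : ∃ v, rank v < D + 1 ∧ t < supp (form v)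
    · obtain ⟨v0, hv0⟩ := hex
      obtain ⟨v, hv, hmax⟩ := Finset.exists_max_image
        (Finset.univ.filter (fun v => rank v < D + 1 ∧ t < supp (form v)))
        (fun v => supp (form v)) ⟨v0, Finset.mem_filter.mpr ⟨Finset.mem_univ _, hv0⟩⟩
      obtain ⟨hvr, hvt⟩ := (Finset.mem_filter.mp hv).2
      have hvr' : rank v = D := by
        by_contra hne
        have := hsupp v (by omega)
        omega
      have hle : supp (form v) ≤ (pred v).card * t := by
        refine supp_span ?_ (hc v).2
        rintro (x | u) hu
        · show supp (Pi.single x 1 : A → F) ≤ t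
          rw [supp_single]
          exact ht
        · show supp (form u) ≤ t
          have := (hc v).1 u hu
          exact hsupp u (by omega)
      set t' := supp (form v) with ht'
      have hne : form v ≠ 0 := by
        intro h0
        rw [ht', h0, supp_zero] at hvt
        omega
      have h1 := orbit_cost hA hs v hne
      rw [← ht'] at h1
      have hd : 1 ≤ (pred v).card := by
        by_contra hcon
        have h0 : (pred v).card = 0 := by omega
        rw [h0, zero_mul] at hle
        omega
      refine ⟨Fin.snoc e (pred v).card, t', ?_, by omega, ?_, ?_, ?_⟩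
      · intro i
        refine Fin.lastCases ?_ (fun j => ?_) i
        · simpa using hd
        · simpa using he j
      · rw [Fin.prod_univ_castSucc]
        simp only [Fin.snoc_castSucc, Fin.snoc_last]
        calc t' ≤ (pred v).card * t := hle
          _ ≤ (pred v).card * ∏ i, e i := Nat.mul_le_mul_left _ hprod
          _ = _ := mul_comm _ _
      · rw [Fin.sum_univ_castSucc]
        simp only [Fin.snoc_castSucc, Fin.snoc_last]
        rw [mul_add]
        calc Fintype.card A * ∑ i, (e i - 1) + Fintype.card A * ((pred v).card - 1)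
            ≤ (∑ w ∈ Finset.univ.filter (fun w => supp (form w) ≤ t), ((pred w).card - 1)) +
              ∑ w ∈ Finset.univ.filter (fun w => supp (form w) = t'), ((pred w).card - 1) :=
              Nat.add_le_add hcost h1
          _ = ∑ w ∈ Finset.univ.filter (fun w => supp (form w) ≤ t) ∪
              Finset.univ.filter (fun w => supp (form w) = t'), ((pred w).card - 1) := by
              rw [Finset.sum_union]
              rw [Finset.disjoint_left]
              intro w h4 h5
              have h6 := (Finset.mem_filter.mp h4).2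
              have h7 := (Finset.mem_filter.mp h5).2
              omega
          _ ≤ _ := by
              apply Finset.sum_le_sum_of_subset
              intro w hw
              rcases Finset.mem_union.mp hw with h | h
              · have := (Finset.mem_filter.mp h).2
                exact Finset.mem_filter.mpr ⟨Finset.mem_univ _, by omega⟩
              · have := (Finset.mem_filter.mp h).2
                exact Finset.mem_filter.mpr ⟨Finset.mem_univ _, by omega⟩
      · intro w hw
        by_cases hwt : supp (form w) ≤ t
        · omega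
        · exact hmax w (Finset.mem_filter.mpr ⟨Finset.mem_univ _, hw, by omega⟩)
    · push Not at hex
      refine ⟨Fin.snoc e 1, t, ?_, ht, ?_, ?_, fun v hv => hex v hv⟩
      · intro i
        refine Fin.lastCases ?_ (fun j => ?_) i
        · simp
        · simpa using he j
      · rw [Fin.prod_univ_castSucc]
        simp only [Fin.snoc_castSucc, Fin.snoc_last, mul_one]
        exact hprod
      · rw [Fin.sum_univ_castSucc]
        simp only [Fin.snoc_castSucc, Fin.snoc_last]
        simpa using hcost

/-- **Lower bound in terms of the depth.** -/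
theorem lower_depth (hA : EnoughCharacters F A) {rank : V → ℕ}
    {pred : V → Finset (A ⊕ V)} {form : V → A → F} (hc : IsLinearCircuit rank pred form)
    (hs : IsSymmetric pred form) {D : ℕ} (hD : ∀ v, rank v < D) {s : ℕ}
    (hex : ∃ v, s ≤ supp (form v)) :
    ∃ e : Fin D → ℕ, (∀ i, 1 ≤ e i) ∧ s ≤ ∏ i, e i ∧
      Fintype.card A * ∑ i, (e i - 1) ≤ additions pred := by
  obtain ⟨e, t, he, ht, hprod, hcost, hsupp⟩ := structure_lemma hA hc hs D
  obtain ⟨v, hv⟩ := hex
  refine ⟨e, he, (hv.trans (hsupp v (hD v))).trans hprod, hcost.trans ?_⟩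
  exact Finset.sum_le_sum_of_subset (Finset.filter_subset _ _)

/-- **Lower bound without any restriction of the depth.** -/
theorem lower (hA : EnoughCharacters F A) {rank : V → ℕ} {pred : V → Finset (A ⊕ V)}
    {form : V → A → F} (hc : IsLinearCircuit rank pred form) (hs : IsSymmetric pred form)
    {s : ℕ} (hex : ∃ v, s ≤ supp (form v)) :
    s ^ Fintype.card A ≤ 2 ^ additions pred := by
  obtain ⟨D, hD⟩ : ∃ D, ∀ v, rank v < D := by
    refine ⟨(Finset.univ.sup rank) + 1, fun v => ?_⟩
    have := Finset.le_sup (f := rank) (Finset.mem_univ v)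
    omega
  obtain ⟨e, he, h1, h2⟩ := lower_depth hA hc hs hD hex
  have h3 : ∏ i, e i ≤ 2 ^ ∑ i, (e i - 1) := by
    rw [← Finset.prod_pow_eq_pow_sum]
    refine Finset.prod_le_prod' (fun i _ => ?_)
    have := Nat.lt_two_pow_self (n := e i - 1)
    have := he i
    omega
  calc s ^ Fintype.card A ≤ (2 ^ ∑ i, (e i - 1)) ^ Fintype.card A :=
        Nat.pow_le_pow_left (h1.trans h3) _
    _ = 2 ^ (Fintype.card A * ∑ i, (e i - 1)) := by rw [← pow_mul, mul_comm]
    _ ≤ 2 ^ additions pred := Nat.pow_le_pow_right (by norm_num) h2

theorem amgm {D : ℕ} (hD : 1 ≤ D) (e : Fin D → ℕ) :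
    D ^ D * ∏ i, e i ≤ (∑ i, e i) ^ D := by
  have hD0 : (0 : ℝ) < D := by exact_mod_cast hD
  have h := Real.geom_mean_le_arith_mean Finset.univ (fun _ : Fin D => (1 : ℝ))
    (fun i => (e i : ℝ)) (fun _ _ => zero_le_one) (by simpa using hD0)
    (fun _ _ => Nat.cast_nonneg _)
  simp only [Real.rpow_one, Finset.sum_const, Finset.card_univ, Fintype.card_fin, nsmul_eq_mul,
    mul_one, one_mul] at h
  have hp : (0 : ℝ) ≤ ∏ i, (e i : ℝ) := Finset.prod_nonneg (fun _ _ => Nat.cast_nonneg _)
  have h1 : (∏ i, (e i : ℝ)) ≤ ((∑ i, (e i : ℝ)) / D) ^ D := by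
    calc (∏ i, (e i : ℝ)) = ((∏ i, (e i : ℝ)) ^ ((D : ℝ)⁻¹)) ^ D := by
          rw [← Real.rpow_natCast, ← Real.rpow_mul hp, inv_mul_cancel₀ hD0.ne', Real.rpow_one]
      _ ≤ _ := pow_le_pow_left₀ (Real.rpow_nonneg hp _) h D
  rw [div_pow, le_div_iff₀ (by positivity)] at h1
  have h2 : ((D ^ D * ∏ i, e i : ℕ) : ℝ) ≤ (((∑ i, e i) ^ D : ℕ) : ℝ) := by
    push_cast
    linarith
  exact_mod_cast h2

theorem supp_char (χ : AddChar A F) : supp (χ : A → F) = Fintype.card A := by
  rw [supp, Finset.filter_true_of_mem]
  · rfl
  · intro x _ h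
    have h1 : χ x * χ (-x) = 1 := by
      rw [← AddChar.map_add_eq_mul, add_neg_cancel, AddChar.map_zero_eq_one]
    rw [h, zero_mul] at h1
    exact zero_ne_one h1

end

end H529R2.SymLin
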